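import Pool.Agent.Lib.MP_3b3418_ag.PW.SpecS

/-!
# Project PV2, part S, module CS: stage `6`
-/

set_option autoImplicit false

namespace PW

open MP3s PV

theorem tCS : S_P1 → S_Ac → S_NU → S_KN → S_KZ → S_KL → S_CS := by
  intro hP1 hAc hNU hKN hKZ hKL m A C β hA hC η V hPa hV hD
  obtain ⟨hAc1, -, hAc3⟩ := hAc m A C β hA hC
  obtain ⟨-, -, -, hsum⟩ := hAc3 6 η V hPa
  have hnn : (∀ k, 0 ≤ al η k) → ∀ k, al η k = 0 := fun h k =>
    (Finset.sum_eq_zero_iff_of_nonneg fun k _ => h k).1 hsum k (Finset.mem_univ _)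
  cases hPa with
  | step q0 η0 _ V0 h0 hS =>
    obtain ⟨hp1, hp2, -, -⟩ := hP1 m 5 η0 η _ _ _ hS
    have hDD := hAc1 5 η0 η V0 hS
    rw [hD] at hDD
    obtain ⟨hKN1, hKN2⟩ := hKN m A C β hA hC 5 η0 V0 h0 (by omega)
    obtain ⟨hNU1, hNU2⟩ := hNU m 5 η0 η _ _ _ hS
    obtain ⟨ρ, hρ1, hρ0, hρ2⟩ := hKN2 (by omega)
    have hdd : dD 5 η0 (co 5 fun p => 1 - A p) (co 5 C) (co 5 β) =
        inn 5 (zt 5 η0 (co 5 fun p => 1 - A p) (co 5 C) (co 5 β)) + (∑ k, (co 5 β k : ℤ)) -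
          (uu 5 η0 (co 5 fun p => 1 - A p) (co 5 C) (co 5 β) -
            nn (co 5 fun p => 1 - A p) (co 5 C) (co 5 β)) := rfl
    have hγ : 0 ≤ ∑ k, (co 5 β k : ℤ) := Finset.sum_nonneg fun k _ => Int.natCast_nonneg _
    have hz := hKZ m A C β hA hC 5 η0 V0 h0
    have hl := hKL m 5 η0 η _ _ _ hS (DD A C β 5 V0) hKN1
    generalize (co 5 fun p => 1 - A p) = s at *
    generalize co 5 C = b at *
    generalize co 5 β = γ at *
    have hinv : (0 : ℤ) ≤ inn 5 (zt 5 η0 s b γ) := Int.natCast_nonneg _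
    generalize inn 5 (zt 5 η0 s b γ) = inv at *
    generalize inn (5 + 1) (zt 5 η0 s b γ) = inv' at *
    generalize DD A C β 5 V0 = D at *
    rcases Nat.eq_zero_or_pos V0 with hV0 | hV0
    · exact hl (hz hV0) hDD.symm
    rcases Nat.lt_or_ge (uu 5 η0 s b γ) 5 with hu | hu
    · obtain ⟨hn1, hn2⟩ := hNU2 hu ρ hρ1
      generalize uu 5 η0 s b γ = u at *
      rw [hdd] at hDD
      obtain ⟨ι, hι⟩ : ∃ ι : ℤ, ι = (u : ℤ) - nn s b γ := ⟨_, rfl⟩
      rw [← hι] at hDD hn2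
      have hιD : D ≤ ι := by linarith
      have hρ00 : ρ ≤ 0 := by
        have hc : (V0 = 1 ∧ (u = 4 ∨ u = 3)) ∨ (V0 = 2 ∧ u = 4) := by
          push_cast at hp1
          omega
        rcases hc with ⟨h1, h2 | h2⟩ | ⟨h1, h2⟩ <;>
        · rw [h1] at hρ2
          rw [h2] at hn2
          push_cast at hρ2 hn2
          linarith
      exact hnn fun k => by
        have := hn1 k
        linarith
    · have huq : uu 5 η0 s b γ = 5 := le_antisymm hp2 hu
      have hb := hNU1 huq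
      exact hnn fun k => by
        have := hb k
        linarith

end PW
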