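import Pool.Agent.Lib.MP_3b3418_ag.PW.SpecS

/-!
# Project PV2, part R: module CT
-/

set_option autoImplicit false

namespace PW

open MP3s PV

/-- The number of letters of a kind. -/
private theorem CT_count {m : ℕ} (s : Option Bool) (l : List (Lt m)) :
    ((l.map clk : List (Option Bool)) : Multiset (Option Bool)).count s =
      ∑ p : Pr m, l.count (s, p) := by
  induction l with
  | nil => simp
  | cons k l ih =>
    have e : (((k :: l).map clk : List (Option Bool)) : Multiset (Option Bool)) =
        clk k ::ₘ ((l.map clk : List (Option Bool)) : Multiset (Option Bool)) := rfl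
    rw [e, Multiset.count_cons, ih]
    have h1 : ∀ p : Pr m, (k :: l).count (s, p) = l.count (s, p) + if k = (s, p) then 1 else 0 := by
      intro p
      rw [List.count_cons]
      simp only [beq_iff_eq]
    rw [Finset.sum_congr rfl fun p _ => h1 p, Finset.sum_add_distrib]
    congr 1
    obtain ⟨s', p'⟩ := k
    change (if s = s' then 1 else 0) = _
    by_cases hs : s = s'
    · subst hs
      rw [if_pos rfl]
      have h2 : ∀ p : Pr m, (if (s, p') = (s, p) then (1 : ℕ) else 0) =
          if p' = p then 1 else 0 := by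
        intro p
        simp only [Prod.mk.injEq, true_and]
      rw [Finset.sum_congr rfl fun p _ => h2 p, Finset.sum_ite_eq]
      simp
    · rw [if_neg hs]
      symm
      refine Finset.sum_eq_zero fun p _ => ?_
      rw [if_neg]
      intro h
      exact hs (Prod.mk.inj h).1.symm

private theorem CT_cs {m : ℕ} (F : Pr m → ℤ) : cs m F = ∑ p, F p := by
  unfold cs
  exact Finset.sum_congr rfl fun p _ => if_pos p.1.2.isLt

theorem tCT : S_PX → S_CS → S_CT := by
  intro hPX hCS m i j hi hm6 l hadm hodd η hη
  set A : Pr m → ℕ := fun p => l.count (some true, p) with hA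
  set C : Pr m → ℕ := fun p => l.count (some false, p) with hC
  set β : Pr m → ℕ := fun p => l.count (none, p) with hβ
  have hA1 : ∀ p, A p ≤ 1 := fun p => hodd true p
  have hC1 : ∀ p, C p ≤ 1 := fun p => hodd false p
  have hPa : Pa A C β m η i := hPX m (Xl l) A C β (fun p => rfl) hA1 hC1 m η i hη
  obtain ⟨h1, h2⟩ := hadm
  rw [CT_count, CT_count] at h1 h2
  have hD : DD A C β m i = 0 := by
    unfold DD
    rw [CT_cs]
    have e1 : ∑ p, ((A p : ℤ) - C p - 2 * β p) =
        (∑ p, (A p : ℤ)) - (∑ p, (C p : ℤ)) - 2 * ∑ p, (β p : ℤ) := by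
      rw [Finset.sum_sub_distrib, Finset.sum_sub_distrib, Finset.mul_sum]
    rw [e1]
    have e2 : ((∑ p, A p : ℕ) : ℤ) + ((∑ p, C p : ℕ) : ℤ) = j := by exact_mod_cast h1
    have e3 : 2 * ((∑ p, β p : ℕ) : ℤ) = -((i : ℤ) + j) + 2 * ((∑ p, A p : ℕ) : ℤ) := h2
    push_cast at e2 e3
    linarith
  subst hm6
  funext k
  have h3 := hCS 6 A C β hA1 hC1 η i hPa hi hD k
  unfold al at h3
  linarith

end PW
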