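import Pool.Agent.Lib.MP_3b3418_ag.PW.SpecR

/-!
# Project PV2, module R/KM: the number `D` stays nonnegative
-/

set_option autoImplicit false

namespace PW

open MP3s PV

private theorem KM_sum {m : ℕ} (f : Fin m → ℤ) (u : ℕ) (D : ℤ) (hD : 0 ≤ D) (hf : ∀ k, f k ≤ D) :
    ∑ k : Fin m with k.val < u, f k ≤ (u : ℤ) * D := by
  have h1 : ∑ k : Fin m with k.val < u, f k ≤
      ((Finset.univ.filter fun k : Fin m => k.val < u).card : ℤ) * D := by
    have h2 := Finset.sum_le_card_nsmul (Finset.univ.filter fun k : Fin m => k.val < u) f D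
      (fun k _ => hf k)
    rw [nsmul_eq_mul] at h2
    exact h2
  have h3 : (Finset.univ.filter fun k : Fin m => k.val < u).card ≤ u := by
    have h4 : ((Finset.univ.filter fun k : Fin m => k.val < u).image fun k : Fin m => k.val).card =
        (Finset.univ.filter fun k : Fin m => k.val < u).card :=
      Finset.card_image_of_injective _ Fin.val_injective
    rw [← h4]
    have h5 : ((Finset.univ.filter fun k : Fin m => k.val < u).image fun k : Fin m => k.val) ⊆
        Finset.range u := by
      intro x hx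
      obtain ⟨k, hk, rfl⟩ := Finset.mem_image.1 hx
      exact Finset.mem_range.2 (Finset.mem_filter.1 hk).2
    exact (Finset.card_le_card h5).trans (by rw [Finset.card_range])
  have h6 : ((Finset.univ.filter fun k : Fin m => k.val < u).card : ℤ) * D ≤ (u : ℤ) * D :=
    mul_le_mul_of_nonneg_right (by exact_mod_cast h3) hD
  exact h1.trans h6

theorem tKM : S_F1 → S_KM := by
  intro h1 m q η η' s b γ hS D hD hal
  have h2 := h1 m q η η' s b γ hS
  have h3 := KM_sum (al η) (uu q η s b γ) D hD hal
  have hu : (0 : ℤ) ≤ (uu q η s b γ : ℤ) := Int.natCast_nonneg _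
  have h4 : ((uu q η s b γ : ℤ) + 1) * (uu q η s b γ - nn s b γ) ≤
      ((uu q η s b γ : ℤ) + 1) * D := by
    have : (uu q η s b γ : ℤ) * D ≤ ((uu q η s b γ : ℤ) + 1) * D := by nlinarith
    linarith
  have h5 : (uu q η s b γ : ℤ) - nn s b γ ≤ D := le_of_mul_le_mul_left h4 (by linarith)
  have h6 : (0 : ℤ) ≤ ∑ k, (γ k : ℤ) := Finset.sum_nonneg fun k _ => Int.natCast_nonneg _
  have h7 : (0 : ℤ) ≤ (inn q (zt q η s b γ) : ℤ) := by positivity
  unfold dD
  linarith

end PW
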