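import Pool.Agent.Lib.MP_3b3418_ag.PW.SpecR

/-!
# Module KN: `D ≥ 0` and the bound of the minimum for `V ≤ 3`
-/

set_option autoImplicit false

namespace PW

open MP3s PV

/-- The inequality for `u < q`. -/
private theorem KN_ineq (q V V' u inv c ι D D' ρ : ℤ) (hV : 0 ≤ V) (hinv : 0 ≤ inv) (hc : 0 ≤ c)
    (hV' : V' = V + (inv + q - u)) (hD' : D' = D + (inv + c - ι)) (hlt : V' < q + 1)
    (huq : u < q) (hρ : 0 ≤ ρ) (ih : (q - V) * (ρ - D) ≤ V * ρ)
    (hι : (u + 1) * ι ≤ (q - u) * ρ) : (q + 1 - V') * (ρ - D') ≤ V' * ρ := by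
  have hn : 0 < q + 1 - V' := by linarith
  have hn1 : q + 1 - V' ≤ q - V := by linarith
  have hn2 : q + 1 - V' ≤ u + 1 := by linarith
  have h1 : (q + 1 - V') * (ρ - D) ≤ V * ρ := by
    rcases le_total 0 (ρ - D) with h | h
    · exact (mul_le_mul_of_nonneg_right hn1 h).trans ih
    · exact (mul_nonpos_of_nonneg_of_nonpos hn.le h).trans (mul_nonneg hV hρ)
  have h2 : (q + 1 - V') * ι ≤ (q - u) * ρ := by
    rcases le_total 0 ι with h | h
    · exact (mul_le_mul_of_nonneg_right hn2 h).trans hι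
    · exact (mul_nonpos_of_nonneg_of_nonpos hn.le h).trans (mul_nonneg (by linarith) hρ)
  have h3 : 0 ≤ (q + 1 - V') * (inv + c) := mul_nonneg hn.le (by linarith)
  have h4 : (q + 1 - V') * (ρ - D') =
      (q + 1 - V') * (ρ - D) + (q + 1 - V') * ι - (q + 1 - V') * (inv + c) := by
    rw [hD']; ring
  have h5 : V' * ρ = V * ρ + (q - u) * ρ + inv * ρ := by
    rw [hV']; ring
  have h6 : 0 ≤ inv * ρ := mul_nonneg hinv hρ
  rw [h4, h5]
  linarith

/-- **KN.** -/
theorem tKN : S_P1 → S_P2 → S_Ac → S_K4 → S_NU → S_KM → S_KN := by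
  intro h1 _ hAc hK4 hNU hKM m A C β hA hC q η V hPa
  obtain ⟨hAc1, -, hAc3⟩ := hAc m A C β hA hC
  induction hPa with
  | zero =>
    intro _
    refine ⟨?_, fun h => absurd h (lt_irrefl _)⟩
    unfold DD cs
    simp
  | step q η η' V hPa hStp ih =>
    intro hV
    obtain ⟨hp1, hp2, -, -⟩ := h1 m q η η' _ _ _ hStp
    have hD := hAc1 q η η' V hStp
    obtain ⟨-, -, -, hsum⟩ := hAc3 (q + 1) η' _ (Pa.step q η η' V hPa hStp)
    obtain ⟨hNU1, hNU2⟩ := hNU m q η η' _ _ _ hStp
    obtain ⟨ihD, ihρ⟩ := ih (le_trans (Nat.le_add_right _ _) hV)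
    have hKM' := hKM m q η η' _ _ _ hStp
    have hqm : q < m := hStp.hq
    have hγ : 0 ≤ ∑ k, (co q β k : ℤ) := Finset.sum_nonneg fun k _ => Int.natCast_nonneg _
    have hdD : dD q η (co q fun p => 1 - A p) (co q C) (co q β) =
        inn q (zt q η (co q fun p => 1 - A p) (co q C) (co q β)) + (∑ k, (co q β k : ℤ)) -
          (uu q η (co q fun p => 1 - A p) (co q C) (co q β) -
            nn (co q fun p => 1 - A p) (co q C) (co q β)) := rfl
    have hV'z : ((V + inn (q + 1) (zt q η (co q fun p => 1 - A p) (co q C) (co q β)) : ℕ) : ℤ) =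
        V + ((inn q (zt q η (co q fun p => 1 - A p) (co q C) (co q β)) : ℤ) + q -
          uu q η (co q fun p => 1 - A p) (co q C) (co q β)) := by
      push_cast
      rw [hp1]
    have hsecond : V + inn (q + 1) (zt q η (co q fun p => 1 - A p) (co q C) (co q β)) < q + 1 →
        ∃ ρ : ℤ, (∀ k, -al η' k ≤ ρ) ∧ 0 ≤ ρ ∧
        (((q + 1 : ℕ) : ℤ) -
          ((V + inn (q + 1) (zt q η (co q fun p => 1 - A p) (co q C) (co q β)) : ℕ) : ℤ)) *
          (ρ - DD A C β (q + 1)
            (V + inn (q + 1) (zt q η (co q fun p => 1 - A p) (co q C) (co q β)))) ≤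
        ((V + inn (q + 1) (zt q η (co q fun p => 1 - A p) (co q C) (co q β)) : ℕ) : ℤ) * ρ := by
      intro hlt
      have hltz : ((V + inn (q + 1)
          (zt q η (co q fun p => 1 - A p) (co q C) (co q β)) : ℕ) : ℤ) < (q : ℤ) + 1 := by
        exact_mod_cast hlt
      rcases Nat.lt_or_ge (uu q η (co q fun p => 1 - A p) (co q C) (co q β)) q with hu | hu
      · -- `u < q`
        have hVq : V < q := by
          have h3 : (V : ℤ) < q := by
            have h4 : (uu q η (co q fun p => 1 - A p) (co q C) (co q β) : ℤ) < q := by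
              exact_mod_cast hu
            have h5 : (0 : ℤ) ≤ inn q (zt q η (co q fun p => 1 - A p) (co q C) (co q β)) :=
              Int.natCast_nonneg _
            rw [hV'z] at hltz
            linarith
          exact_mod_cast h3
        obtain ⟨ρ, hρ1, hρ0, hρ2⟩ := ihρ hVq
        obtain ⟨hn1, hn2⟩ := hNU2 hu ρ hρ1
        refine ⟨ρ, hn1, hρ0, ?_⟩
        push_cast
        have hV'z2 := hV'z
        push_cast at hV'z2
        refine KN_ineq (q : ℤ) V _ (uu q η (co q fun p => 1 - A p) (co q C) (co q β))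
          (inn q (zt q η (co q fun p => 1 - A p) (co q C) (co q β))) (∑ k, (co q β k : ℤ))
          (uu q η (co q fun p => 1 - A p) (co q C) (co q β) -
            nn (co q fun p => 1 - A p) (co q C) (co q β)) (DD A C β q V) _ ρ
          (Int.natCast_nonneg _) (Int.natCast_nonneg _) hγ hV'z2 ?_ ?_ (by exact_mod_cast hu)
          hρ0 hρ2 hn2
        · rw [hD, hdD]
        · push_cast at hltz
          exact hltz
      · -- `u = q`
        have huq : uu q η (co q fun p => 1 - A p) (co q C) (co q β) = q := le_antisymm hp2 hu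
        have hb := hNU1 huq
        have hρ0 : 0 ≤ dD q η (co q fun p => 1 - A p) (co q C) (co q β) := by
          by_contra hneg
          push Not at hneg
          have hpos : ∀ k, 0 < al η' k := fun k => by
            have h3 := hb k
            linarith
          have h4 : 0 < ∑ k, al η' k :=
            Finset.sum_pos (fun k _ => hpos k) ⟨⟨q, hqm⟩, Finset.mem_univ _⟩
          rw [hsum] at h4
          exact lt_irrefl _ h4
        refine ⟨_, hb, hρ0, ?_⟩
        rw [hD]
        have h5 : dD q η (co q fun p => 1 - A p) (co q C) (co q β) -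
            (DD A C β q V + dD q η (co q fun p => 1 - A p) (co q C) (co q β)) =
            -DD A C β q V := by ring
        rw [h5]
        have h6 : (0 : ℤ) ≤ ((q + 1 : ℕ) : ℤ) -
            ((V + inn (q + 1) (zt q η (co q fun p => 1 - A p) (co q C) (co q β)) : ℕ) : ℤ) := by
          push_cast at hltz ⊢
          linarith
        exact (mul_nonpos_of_nonneg_of_nonpos h6 (by linarith)).trans
          (mul_nonneg (Int.natCast_nonneg _) hρ0)
    refine ⟨?_, hsecond⟩
    rcases Nat.lt_or_ge 4 q with hq4 | hq4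
    · obtain ⟨ρ, -, hρ0, hρ⟩ := hsecond (by omega)
      have h7 : ((V + inn (q + 1)
          (zt q η (co q fun p => 1 - A p) (co q C) (co q β)) : ℕ) : ℤ) ≤ 3 := by
        exact_mod_cast hV
      have h8 : (6 : ℤ) ≤ ((q + 1 : ℕ) : ℤ) := by
        exact_mod_cast (by omega : 6 ≤ q + 1)
      generalize ((V + inn (q + 1)
          (zt q η (co q fun p => 1 - A p) (co q C) (co q β)) : ℕ) : ℤ) = v at hρ h7
      generalize ((q + 1 : ℕ) : ℤ) = Q at hρ h8
      generalize DD A C β (q + 1)
            (V + inn (q + 1) (zt q η (co q fun p => 1 - A p) (co q C) (co q β))) = d at hρ ⊢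
      have h9 : 0 ≤ (Q - 2 * v) * ρ := mul_nonneg (by linarith) hρ0
      have h10 : 0 ≤ (Q - v) * d := by
        have h11 : (Q - v) * d = (Q - v) * ρ - (Q - v) * (ρ - d) := by ring
        have h12 : (Q - v) * ρ - v * ρ = (Q - 2 * v) * ρ := by ring
        linarith
      have h13 : 0 < Q - v := by linarith
      exact nonneg_of_mul_nonneg_right h10 h13
    · rw [hD]
      exact hKM' _ ihD (hK4 m A C β hA hC q η V hPa hq4 hqm)

end PW
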