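import Pool.Agent.Lib.MP_3b3418_ag.PW.SpecS

/-!
# Project PV2, part S, module KZ: the case `V = 0`
-/

set_option autoImplicit false

namespace PW

open MP3s PV

theorem tKZ : S_P1 → S_P2 → S_TS → S_F3 → S_Ac → S_KZ := by
  intro hP1 hP2 hTS hF3 hAc m A C β hA hC q η V hPa
  obtain ⟨hAc1, -, hAc3⟩ := hAc m A C β hA hC
  induction hPa with
  | zero =>
    intro _ k
    unfold al DD cs
    simp
  | step q η η' V hPa hStp ih =>
    intro hV
    have hV0 : V = 0 := by omega
    have hin0 : inn (q + 1) (zt q η (co q fun p => 1 - A p) (co q C) (co q β)) = 0 := by omega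
    have ih' := ih hV0
    obtain ⟨hp1, hp2, hp3, -⟩ := hP1 m q η η' _ _ _ hStp
    have hD := hAc1 q η η' V hStp
    rw [hD]
    obtain ⟨-, hdec', htail', hsum'⟩ := hAc3 (q + 1) η' _ (Pa.step q η η' V hPa hStp)
    have hqm : q < m := hStp.hq
    obtain ⟨z, hz⟩ : ∃ z : Fin m, z.val = 0 := ⟨⟨0, by omega⟩, rfl⟩
    have hF := hF3 m q η η' _ _ _ hStp z hz
    have hTS' := hTS m (q + 1) η' hdec'
    obtain ⟨-, htop, -⟩ := (hTS'.2.2 htail' hsum').1 z hz
    have hmin := hTS'.2.1
    have hs1 := hStp.s1
    have hb1 := hStp.b1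
    have htq := hStp.tail ⟨q, hqm⟩ le_rfl
    have hD0 : 0 ≤ DD A C β q V := by
      have := ih' ⟨q, hqm⟩
      unfold al at this
      rw [htq] at this
      linarith
    have hdd : dD q η (co q fun p => 1 - A p) (co q C) (co q β) =
        inn q (zt q η (co q fun p => 1 - A p) (co q C) (co q β)) + (∑ k, (co q β k : ℤ)) -
          (uu q η (co q fun p => 1 - A p) (co q C) (co q β) -
            nn (co q fun p => 1 - A p) (co q C) (co q β)) := rfl
    have hγ : 0 ≤ ∑ k, (co q β k : ℤ) := Finset.sum_nonneg fun k _ => Int.natCast_nonneg _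
    rw [hin0] at hp1
    generalize (co q fun p => 1 - A p) = s at *
    generalize co q C = b at *
    generalize hγ' : co q β = γ at *
    generalize uu q η s b γ = u at *
    generalize dD q η s b γ = d at *
    have hinv : (0 : ℤ) ≤ inn q (zt q η s b γ) := Int.natCast_nonneg _
    have hu : (u : ℤ) = q := by
      have h1 : (u : ℤ) ≤ q := by exact_mod_cast hp2
      push_cast at hp1
      linarith
    have huq : u = q := by exact_mod_cast hu
    intro k
    refine (htop k).trans ?_
    rcases lt_or_ge (u : ℤ) (nn s b γ) with hι | hι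
    · -- `ι ≤ -1`
      have hu1 : 1 ≤ u := by
        by_contra h
        have h0 : u = 0 := by omega
        obtain ⟨e1, -⟩ := hF.1 h0
        rw [e1, h0] at hι
        simp at hι
      obtain ⟨k0, -, e1, -⟩ := hF.2.1 hu1
      have e2 : (γ k0 : ℤ) ≤ ∑ k, (γ k : ℤ) :=
        Finset.single_le_sum (f := fun k => (γ k : ℤ)) (fun i _ => Int.natCast_nonneg _)
          (Finset.mem_univ k0)
      have e3 : (s k0 : ℤ) ≤ 1 := by exact_mod_cast hs1 k0
      have e4 : (b k0 : ℤ) ≤ 1 := by exact_mod_cast hb1 k0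
      have e5 : (0 : ℤ) ≤ k0.val := by positivity
      have e6 := ih' z
      rw [hdd]
      linarith
    · -- `ι ≥ 0`
      have e1 := hp3 ⟨q, hqm⟩ huq.symm
      have e2 : al η' ⟨q, hqm⟩ = (q : ℤ) - nn s b γ := by
        unfold al del
        rw [e1]
        simp only
        ring
      have e3 : ∀ k ∈ Finset.univ, 0 ≤ al η' k := by
        intro k _
        rcases Nat.lt_or_ge q k.val with h | h
        · unfold al
          rw [htail' k h, sub_self]
        · have := (hmin k ⟨q, hqm⟩ (Fin.le_def.2 h) (Nat.lt_succ_self q)).2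
          rw [e2] at this
          linarith
      have e4 := (Finset.sum_eq_zero_iff_of_nonneg e3).1 hsum'
      have e5 := e4 ⟨q, hqm⟩ (Finset.mem_univ _)
      rw [e2] at e5
      rw [e4 z (Finset.mem_univ _), hdd]
      linarith

end PW
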