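import Pool.Agent.Lib.MP_3b3418_ag.PW.SpecR

/-! # Project PV2, module R/NU: the minimum of `al` in one step -/

set_option autoImplicit false

namespace PW

open MP3s PV

/-- The number of the positions in `[u, q)`. -/
private theorem NU_card (m u q : ℕ) :
    (Finset.univ.filter fun k : Fin m => u ≤ k.val ∧ k.val < q).card ≤ q - u := by
  rw [← Nat.card_Ico]
  refine Finset.card_le_card_of_injOn Fin.val ?_ ?_
  · intro k hk
    have hk' := (Finset.mem_filter.1 (Finset.mem_coe.1 hk)).2
    exact Finset.mem_coe.2 (Finset.mem_Ico.2 hk')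
  · intro a _ b _ hab
    exact Fin.ext hab

/-- The sum over the positions below `u`, if the total sum is zero and the entries from `q` on
vanish. -/
private theorem NU_sum {m : ℕ} (u q : ℕ) (f : Fin m → ℤ) (ρ : ℤ) (huq : u ≤ q)
    (h0 : ∑ k, f k = 0) (ht : ∀ k : Fin m, q ≤ k.val → f k = 0) (hρ : 0 ≤ ρ)
    (hf : ∀ k, -f k ≤ ρ) :
    ∑ k : Fin m with k.val < u, f k ≤ ((q : ℤ) - u) * ρ := by
  have h1 := Finset.sum_filter_add_sum_filter_not Finset.univ (fun k : Fin m => k.val < u) f
  rw [h0] at h1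
  have h2 : ∑ k : Fin m with ¬ k.val < u, f k =
      ∑ k : Fin m with (u ≤ k.val ∧ k.val < q), f k := by
    symm
    apply Finset.sum_subset
    · intro k hk
      rw [Finset.mem_filter] at hk ⊢
      exact ⟨hk.1, not_lt.2 hk.2.1⟩
    · intro k hk hk2
      rw [Finset.mem_filter] at hk hk2
      apply ht
      by_contra hlt
      exact hk2 ⟨hk.1, not_lt.1 hk.2, not_le.1 hlt⟩
  have h3 : -∑ k : Fin m with (u ≤ k.val ∧ k.val < q), f k ≤ ((q : ℤ) - u) * ρ := by
    rw [← Finset.sum_neg_distrib]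
    have h4 : ∑ k : Fin m with (u ≤ k.val ∧ k.val < q), -f k ≤
        (Finset.univ.filter fun k : Fin m => u ≤ k.val ∧ k.val < q).card • ρ :=
      Finset.sum_le_card_nsmul _ _ _ (fun k _ => hf k)
    refine le_trans h4 ?_
    rw [nsmul_eq_mul]
    apply mul_le_mul_of_nonneg_right _ hρ
    have h5 := NU_card m u q
    have h6 : (((Finset.univ.filter fun k : Fin m => u ≤ k.val ∧ k.val < q).card : ℕ) : ℤ) ≤
        ((q - u : ℕ) : ℤ) := by exact_mod_cast h5
    rw [Nat.cast_sub huq] at h6
    exact h6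
  rw [h2] at h1
  linarith

theorem tNU : S_P1 → S_P2 → S_P3 → S_TS → S_F1 → S_NU := by
  intro hP1 hP2 hP3 hTS hF1 m q η η' s b γ hS
  obtain ⟨_, huq, hX, _⟩ := hP1 m q η η' s b γ hS
  obtain ⟨_, hdec', htail', hsum'⟩ := hP2 m q η η' s b γ hS
  have hTS' := (hTS m (q + 1) η' hdec').2.1
  have hqm := hS.hq
  have ht' : ∀ k : Fin m, q + 1 ≤ k.val → al η' k = 0 := by
    intro k hk
    unfold al
    rw [htail' k hk, sub_self]
  refine ⟨?_, ?_⟩
  · intro huq1
    -- the last entry
    have hlast : al η' ⟨q, hqm⟩ = (q : ℤ) - nn s b γ := by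
      unfold al del
      rw [hX ⟨q, hqm⟩ huq1.symm]
      simp only
      ring
    have hmin : ∀ k : Fin m, k.val ≤ q → (q : ℤ) - nn s b γ ≤ al η' k := by
      intro k hk
      rw [← hlast]
      exact (hTS' k ⟨q, hqm⟩ (Fin.le_def.2 hk) (Nat.lt_succ_self q)).2
    have hι : (q : ℤ) - nn s b γ ≤ 0 := by
      by_contra hcon
      rw [not_le] at hcon
      have h1 : 0 < ∑ k, al η' k := by
        apply Finset.sum_pos'
        · intro k _
          rcases Nat.lt_or_ge q k.val with h | h
          · rw [ht' k h]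
          · exact le_trans hcon.le (hmin k h)
        · exact ⟨⟨q, hqm⟩, Finset.mem_univ _, lt_of_lt_of_le hcon (hmin _ le_rfl)⟩
      rw [hsum'] at h1
      exact lt_irrefl _ h1
    have hγ : (0 : ℤ) ≤ ∑ k, (γ k : ℤ) := Finset.sum_nonneg (fun k _ => Int.natCast_nonneg _)
    have hdD : -((q : ℤ) - nn s b γ) ≤ dD q η s b γ := by
      unfold dD
      rw [huq1]
      have hin : (0 : ℤ) ≤ (inn q (zt q η s b γ) : ℤ) := Int.natCast_nonneg _
      linarith
    intro k
    rcases Nat.lt_or_ge q k.val with h | h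
    · rw [ht' k h]
      linarith
    · have := hmin k h
      linarith
  · intro hlt ρ hρ
    have htail : ∀ k : Fin m, q ≤ k.val → al η k = 0 := by
      intro k hk
      unfold al
      rw [hS.tail k hk, sub_self]
    have hρ0 : 0 ≤ ρ := by
      have h1 := hρ ⟨q, hqm⟩
      rw [htail ⟨q, hqm⟩ le_rfl, neg_zero] at h1
      exact h1
    refine ⟨?_, ?_⟩
    · intro k
      rcases Nat.lt_or_ge q k.val with h | h
      · rw [ht' k h, neg_zero]
        exact hρ0
      · have hq1 : q - 1 < m := by omega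
        have h1 : al η' ⟨q, hqm⟩ ≤ al η' k :=
          (hTS' k ⟨q, hqm⟩ (Fin.le_def.2 h) (Nat.lt_succ_self q)).2
        have h2 := (hP3 m q η η' s b γ hS).2.2 ⟨q, hqm⟩ ⟨q - 1, hq1⟩ hlt le_rfl
          (by simp only; omega)
        have h3 : al η ⟨q - 1, hq1⟩ ≤ al η' ⟨q, hqm⟩ := by
          unfold al del
          simp only
          have h4 : ((q - 1 : ℕ) : ℤ) = (q : ℤ) - 1 := by
            have : 1 ≤ q := by omega
            push_cast [Nat.cast_sub this]
            ring
          rw [h4]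
          linarith
        have h5 := hρ ⟨q - 1, hq1⟩
        linarith
    · exact le_trans (hF1 m q η η' s b γ hS)
        (NU_sum (uu q η s b γ) q (al η) ρ huq hS.sum0 htail hρ0 hρ)

end PW
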