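import Pool.Agent.Lib.MP_3b3418_ag.PW.SpecS

/-!
# Module FS: the theorem, rows `i ≤ 3` without a condition on `m`
-/

set_option autoImplicit false

namespace PW

open MP3s PV

theorem tFS : S_TA → S_CB → S_CR → S_CT → S_FS := by
  intro hTA hCB hCR hCT m i j hR
  obtain ⟨⟨ρM, hρM⟩, hrat⟩ := tMR tMor aRd m j (-((i : ℤ) + j))
  refine aBC m i j ρM hρM (hrat ρM hρM) (hTA m j _ i ρM hρM (hrat ρM hρM) ?_)
  intro l hl hO η hη
  have h5 : m ≤ 5 → η = del m := fun h => hCB m i j (Or.inr (Or.inr (Or.inr h))) l hl hO η hη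
  rcases hR with h | h | h | h | h
  · exact hCB m i j (Or.inl h) l hl hO η hη
  · exact hCB m i j (Or.inr (Or.inl h)) l hl hO η hη
  · exact hCB m i j (Or.inr (Or.inr (Or.inl h))) l hl hO η hη
  · rcases Nat.lt_or_ge 5 m with h1 | h1
    · rcases Nat.lt_or_ge 6 m with h2 | h2
      · exact hCR m i j h (by omega) l hl hO η hη
      · exact hCT m i j h (by omega) l hl hO η hη
    · exact h5 h1
  · exact h5 h

end PW
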